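import Pool.Agent.UMix.PiOne

/-!
# Character sums over subgroups of `(ℤ/q)²` and the representation of the exponent function
-/

set_option autoImplicit false

open Finset

namespace Pool.Agent.UMix

variable {q : ℕ} [NeZero q]

theorem std_eq_one_iff (s : ZMod q) : (ZMod.stdAddChar s : ℂ) = 1 ↔ s = 0 := by
  constructor
  · intro h
    apply ZMod.injective_stdAddChar
    rw [h, AddChar.map_zero_eq_one]
  · rintro rfl
    exact AddChar.map_zero_eq_one _

theorem std_sum {ι : Type*} (s : Finset ι) (f : ι → ZMod q) :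
    (ZMod.stdAddChar (∑ i ∈ s, f i) : ℂ) = ∏ i ∈ s, ZMod.stdAddChar (f i) := by
  classical
  induction s using Finset.induction_on with
  | empty => simp
  | insert a s ha ih =>
    rw [Finset.sum_insert ha, Finset.prod_insert ha, AddChar.map_add_eq_mul, ih]

theorem sum_std (b : ZMod q) :
    ∑ x : ZMod q, (ZMod.stdAddChar (b * x) : ℂ) = if b = 0 then (q : ℂ) else 0 := by
  have h := AddChar.sum_mulShift (R' := ℂ) b (ZMod.isPrimitive_stdAddChar q)
  rw [ZMod.card] at h
  have e : ∑ x : ZMod q, (ZMod.stdAddChar (b * x) : ℂ) = ∑ x : ZMod q, ZMod.stdAddChar (x * b) :=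
    Finset.sum_congr rfl fun x _ => by rw [mul_comm]
  rw [e, h]
  split_ifs <;> simp

theorem sum_dot {ι : Type*} [Fintype ι] [DecidableEq ι] (v : ι → ZMod q) :
    ∑ y : ι → ZMod q, (ZMod.stdAddChar (∑ i, v i * y i) : ℂ)
      = if v = 0 then (q : ℂ) ^ Fintype.card ι else 0 := by
  have e1 : ∀ y : ι → ZMod q, (ZMod.stdAddChar (∑ i, v i * y i) : ℂ)
      = ∏ i, (ZMod.stdAddChar (v i * y i) : ℂ) := by
    intro y
    exact std_sum _ _
  rw [Finset.sum_congr rfl fun y _ => e1 y]
  have e2 := Finset.prod_univ_sum (fun _ : ι => (Finset.univ : Finset (ZMod q)))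
    (fun i x => (ZMod.stdAddChar (v i * x) : ℂ))
  rw [Fintype.piFinset_univ] at e2
  rw [← e2]
  rw [Finset.prod_congr rfl fun i _ => sum_std (v i), Finset.prod_ite_zero]
  have e3 : (∀ i ∈ (Finset.univ : Finset ι), v i = 0) ↔ v = 0 := by
    constructor
    · intro h; funext i; exact h i (Finset.mem_univ i)
    · rintro rfl i _; rfl
  by_cases hv : v = 0
  · rw [if_pos hv, if_pos (e3.2 hv), Finset.prod_const, Finset.card_univ]
  · rw [if_neg hv, if_neg (fun h => hv (e3.1 h))]

/-- the pairing on `(ℤ/q)²` -/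
def pr (x z : ZMod q × ZMod q) : ZMod q := x.1 * z.1 + x.2 * z.2

omit [NeZero q] in
theorem pr_comm (x z : ZMod q × ZMod q) : pr x z = pr z x := by
  unfold pr; ring

omit [NeZero q] in
theorem pr_add (x z z' : ZMod q × ZMod q) : pr x (z + z') = pr x z + pr x z' := by
  unfold pr; simp only [Prod.fst_add, Prod.snd_add]; ring

omit [NeZero q] in
theorem pr_neg (x z : ZMod q × ZMod q) : pr x (-z) = -pr x z := by
  unfold pr; simp only [Prod.fst_neg, Prod.snd_neg]; ring

theorem sum_pr (x : ZMod q × ZMod q) :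
    ∑ z : ZMod q × ZMod q, (ZMod.stdAddChar (pr x z) : ℂ) = if x = 0 then (q : ℂ) ^ 2 else 0 := by
  rw [Fintype.sum_prod_type]
  have e1 : ∀ a b : ZMod q, (ZMod.stdAddChar (pr x (a, b)) : ℂ)
      = ZMod.stdAddChar (x.1 * a) * ZMod.stdAddChar (x.2 * b) := by
    intro a b
    exact AddChar.map_add_eq_mul _ _ _
  simp_rw [e1]
  rw [← Finset.sum_mul_sum, sum_std, sum_std]
  by_cases h1 : x.1 = 0
  · by_cases h2 : x.2 = 0
    · rw [if_pos h1, if_pos h2, if_pos (Prod.ext h1 h2)]; ring
    · have hx : ¬ (x = 0) := fun h => h2 (congrArg Prod.snd h)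
      rw [if_neg h2, if_neg hx, mul_zero]
  · have hx : ¬ (x = 0) := fun h => h1 (congrArg Prod.fst h)
    rw [if_neg h1, if_neg hx, zero_mul]

/-- the annihilator of a subgroup -/
def perp (K : AddSubgroup (ZMod q × ZMod q)) : AddSubgroup (ZMod q × ZMod q) where
  carrier := {x | ∀ z ∈ K, pr x z = 0}
  zero_mem' := by
    intro z _
    unfold pr
    simp
  add_mem' := by
    intro a b ha hb z hz
    have h1 := ha z hz
    have h2 := hb z hz
    rw [pr_comm] at h1 h2 ⊢
    rw [pr_add, h1, h2, add_zero]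
  neg_mem' := by
    intro a ha z hz
    have h1 := ha z hz
    rw [pr_comm] at h1 ⊢
    rw [pr_neg, h1, neg_zero]

theorem mem_perp (K : AddSubgroup (ZMod q × ZMod q)) (x : ZMod q × ZMod q) :
    x ∈ perp K ↔ ∀ z ∈ K, pr x z = 0 := Iff.rfl

open Classical in
/-- the character sum over a subgroup -/
noncomputable def T (H : AddSubgroup (ZMod q × ZMod q)) (x : ZMod q × ZMod q) : ℂ :=
  ∑ z : ZMod q × ZMod q, if z ∈ H then ZMod.stdAddChar (pr x z) else 0

open Classical in
/-- its value -/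
noncomputable def Ti (H : AddSubgroup (ZMod q × ZMod q)) (x : ZMod q × ZMod q) : ℤ :=
  if x ∈ perp H then (Nat.card H : ℤ) else 0

theorem T_eq (H : AddSubgroup (ZMod q × ZMod q)) (x : ZMod q × ZMod q) :
    T H x = (Ti H x : ℂ) := by
  classical
  unfold T Ti
  by_cases hx : x ∈ perp H
  · rw [if_pos hx]
    have e1 : ∀ z : ZMod q × ZMod q, (if z ∈ H then (ZMod.stdAddChar (pr x z) : ℂ) else 0)
        = if z ∈ H then 1 else 0 := by
      intro z
      by_cases hz : z ∈ H
      · rw [if_pos hz, if_pos hz, hx z hz, AddChar.map_zero_eq_one]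
      · rw [if_neg hz, if_neg hz]
    rw [Finset.sum_congr rfl fun z _ => e1 z, Finset.sum_boole]
    have e2 : Nat.card H = (Finset.univ.filter (fun z : ZMod q × ZMod q => z ∈ H)).card := by
      rw [Nat.card_eq_fintype_card]
      exact Fintype.card_subtype _
    rw [e2]
    push_cast
    rfl
  · rw [if_neg hx]
    rw [mem_perp] at hx
    push Not at hx
    obtain ⟨z0, hz0, hne⟩ := hx
    have h1 : (ZMod.stdAddChar (pr x z0) : ℂ) ≠ 1 := fun h => hne ((std_eq_one_iff _).1 h)
    set S : ℂ := ∑ z : ZMod q × ZMod q, if z ∈ H then (ZMod.stdAddChar (pr x z) : ℂ) else 0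
      with hS
    have h2 : S = ZMod.stdAddChar (pr x z0) * S := by
      rw [hS, Finset.mul_sum]
      refine (Fintype.sum_equiv (Equiv.addRight z0) _ _ ?_).symm
      intro z
      have hmem : z + z0 ∈ H ↔ z ∈ H := by
        constructor
        · intro h
          have := H.sub_mem h hz0
          rwa [add_sub_cancel_right] at this
        · intro h
          exact H.add_mem h hz0
      show (ZMod.stdAddChar (pr x z0) : ℂ) * (if z ∈ H then (ZMod.stdAddChar (pr x z) : ℂ) else 0)
        = if z + z0 ∈ H then (ZMod.stdAddChar (pr x (z + z0)) : ℂ) else 0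
      by_cases hz : z ∈ H
      · rw [if_pos hz, if_pos (hmem.2 hz), pr_add, AddChar.map_add_eq_mul, mul_comm]
      · rw [if_neg hz, if_neg (fun h => hz (hmem.1 h)), mul_zero]
    have h3 : (ZMod.stdAddChar (pr x z0) - 1) * S = 0 := by
      rw [sub_mul, one_mul, ← h2, sub_self]
    rcases mul_eq_zero.1 h3 with h | h
    · exact absurd (sub_eq_zero.1 h) h1
    · rw [h]; simp

open Classical in
/-- `q² · 1_K = |K| · T_{K^⊥}` -/
theorem ident (K : AddSubgroup (ZMod q × ZMod q)) (x : ZMod q × ZMod q) :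
    (Nat.card K : ℂ) * T (perp K) x = if x ∈ K then (q : ℂ) ^ 2 else 0 := by
  have h1 : (Nat.card K : ℂ) * T (perp K) x
      = ∑ z : ZMod q × ZMod q, T K z * ZMod.stdAddChar (pr x z) := by
    unfold T
    rw [Finset.mul_sum]
    refine Finset.sum_congr rfl fun z _ => ?_
    have h2 : (∑ z_1 : ZMod q × ZMod q, if z_1 ∈ K then (ZMod.stdAddChar (pr z z_1) : ℂ) else 0)
        = (Ti K z : ℂ) := T_eq K z
    rw [h2]
    unfold Ti
    by_cases hz : z ∈ perp K
    · rw [if_pos hz, if_pos hz]; push_cast; rfl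
    · rw [if_neg hz, if_neg hz]; simp
  rw [h1]
  unfold T
  simp_rw [Finset.sum_mul]
  rw [Finset.sum_comm]
  have h3 : ∀ y : ZMod q × ZMod q, ∑ z : ZMod q × ZMod q,
      (if y ∈ K then (ZMod.stdAddChar (pr z y) : ℂ) else 0) * ZMod.stdAddChar (pr x z)
      = if y = -x then (if y ∈ K then (q : ℂ) ^ 2 else 0) else 0 := by
    intro y
    by_cases hy : y ∈ K
    · rw [if_pos hy]
      have h4 : ∀ z : ZMod q × ZMod q,
          (if y ∈ K then (ZMod.stdAddChar (pr z y) : ℂ) else 0) * ZMod.stdAddChar (pr x z)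
          = ZMod.stdAddChar (pr (y + x) z) := by
        intro z
        rw [if_pos hy, ← AddChar.map_add_eq_mul]
        have : pr z y + pr x z = pr (y + x) z := by
          unfold pr; simp only [Prod.fst_add, Prod.snd_add]; ring
        rw [this]
      rw [Finset.sum_congr rfl fun z _ => h4 z, sum_pr]
      by_cases hyx : y = -x
      · rw [if_pos hyx, if_pos (by rw [hyx, neg_add_cancel])]
      · rw [if_neg hyx, if_neg (fun h => hyx (eq_neg_of_add_eq_zero_left h))]
    · simp [hy]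
  rw [Finset.sum_congr rfl fun y _ => h3 y]
  rw [Finset.sum_ite_eq' Finset.univ (-x)]
  simp

/-- The exponent function, multiplied by `q²`, is up to multiples of `q³` minus a sum of finitely
many integral character sums over subgroups. -/
theorem exists_family : ∃ (N : ℕ) (Hs : Fin N → AddSubgroup (ZMod q × ZMod q)),
    ∀ x : ZMod q × ZMod q, ∃ s : ℤ,
      (q : ℤ) ^ 2 * expo x + ∑ σ, Ti (Hs σ) x = (q : ℤ) ^ 3 * s := by
  classical
  obtain ⟨α, hα⟩ := (expo_classFun (q := q)).inSpan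
  have hq : (q : ℤ) ^ 3 ≠ 0 := pow_ne_zero 3 (Int.natCast_ne_zero.2 (NeZero.ne q))
  let n : AddSubgroup (ZMod q × ZMod q) → ℕ := fun K =>
    ((-(α K * Nat.card K)) % ((q : ℤ) ^ 3)).toNat
  have hn : ∀ K, (n K : ℤ) = (-(α K * Nat.card K)) % ((q : ℤ) ^ 3) := fun K =>
    Int.toNat_of_nonneg (Int.emod_nonneg _ hq)
  let Ix := Σ K : AddSubgroup (ZMod q × ZMod q), Fin (n K)
  refine ⟨Fintype.card Ix, fun i => perp ((Fintype.equivFin Ix).symm i).1, fun x => ?_⟩
  have h1 : ∑ σ, Ti (perp ((Fintype.equivFin Ix).symm σ).1) x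
      = ∑ K : AddSubgroup (ZMod q × ZMod q), (n K : ℤ) * Ti (perp K) x := by
    rw [Fintype.sum_equiv (Fintype.equivFin Ix).symm _ (fun i : Ix => Ti (perp i.1) x)
      (fun i => rfl)]
    rw [Fintype.sum_sigma]
    refine Finset.sum_congr rfl fun K _ => ?_
    simp
  have h2 : (q : ℤ) ^ 2 * expo x
      = ∑ K : AddSubgroup (ZMod q × ZMod q), (α K * Nat.card K) * Ti (perp K) x := by
    have h3 : ((q : ℤ) ^ 2 * expo x : ℤ) = ((∑ K : AddSubgroup (ZMod q × ZMod q),
        (α K * Nat.card K) * Ti (perp K) x : ℤ)) := by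
      have h4 : (((q : ℤ) ^ 2 * expo x : ℤ) : ℂ) = ((∑ K : AddSubgroup (ZMod q × ZMod q),
        (α K * Nat.card K) * Ti (perp K) x : ℤ) : ℂ) := by
        rw [hα x]
        push_cast
        rw [Finset.mul_sum]
        refine Finset.sum_congr rfl fun K _ => ?_
        rw [← T_eq, mul_assoc, ident]
        by_cases hx : x ∈ K
        · rw [if_pos hx, if_pos hx]; ring
        · rw [if_neg hx, if_neg hx]; simp
      exact_mod_cast h4
    exact h3
  refine ⟨∑ K : AddSubgroup (ZMod q × ZMod q),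
    (-((-(α K * Nat.card K)) / ((q : ℤ) ^ 3))) * Ti (perp K) x, ?_⟩
  rw [h1, h2, ← Finset.sum_add_distrib, Finset.mul_sum]
  refine Finset.sum_congr rfl fun K _ => ?_
  rw [hn K]
  have h5 := Int.emod_add_mul_ediv (-(α K * Nat.card K)) ((q : ℤ) ^ 3)
  have h6 : (-(α K * Nat.card K)) % ((q : ℤ) ^ 3)
      = -(α K * Nat.card K) - (q : ℤ) ^ 3 * ((-(α K * Nat.card K)) / ((q : ℤ) ^ 3)) := by
    linarith
  rw [h6]
  ring

end Pool.Agent.UMix
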