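import Mathlib

/-!
# Class functions on a finite abelian group are combinations of indicators of subgroups
-/

set_option autoImplicit false

open Finset

namespace Pool.Agent.UMix

variable {Γ : Type*} [AddCommGroup Γ] [Fintype Γ]

open Classical in
/-- `F` is an integral combination of indicator functions of subgroups. -/
def InSpan (F : Γ → ℤ) : Prop :=
  ∃ α : AddSubgroup Γ → ℤ, ∀ x, F x = ∑ K : AddSubgroup Γ, if x ∈ K then α K else 0

/-- `F` takes the same value on all generators of a cyclic subgroup. -/
def ClassFun (F : Γ → ℤ) : Prop :=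
  ∀ x y, AddSubgroup.zmultiples x = AddSubgroup.zmultiples y → F x = F y

theorem InSpan.zero : InSpan (fun _ : Γ => 0) := ⟨fun _ => 0, fun x => by simp⟩

theorem InSpan.add {F F' : Γ → ℤ} (h : InSpan F) (h' : InSpan F') :
    InSpan (fun x => F x + F' x) := by
  classical
  obtain ⟨α, hα⟩ := h
  obtain ⟨β, hβ⟩ := h'
  refine ⟨fun K => α K + β K, fun x => ?_⟩
  show F x + F' x = ∑ K : AddSubgroup Γ, if x ∈ K then α K + β K else 0
  rw [hα, hβ, ← Finset.sum_add_distrib]
  refine Finset.sum_congr rfl fun K _ => ?_
  split_ifs <;> simp

open Classical in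
theorem InSpan.smul_ind (c : ℤ) (K : AddSubgroup Γ) :
    InSpan (fun x => if x ∈ K then c else 0) := by
  refine ⟨fun K' => if K' = K then c else 0, fun x => ?_⟩
  rw [Finset.sum_eq_single K]
  · simp
  · intro K' _ hne
    simp [hne]
  · intro h
    exact absurd (Finset.mem_univ K) h

theorem InSpan.sum {ι : Type*} (s : Finset ι) (F : ι → Γ → ℤ) (h : ∀ i ∈ s, InSpan (F i)) :
    InSpan (fun x => ∑ i ∈ s, F i x) := by
  classical
  induction s using Finset.induction_on with
  | empty => simpa using InSpan.zero
  | insert a s ha ih =>
    have h1 := (h a (Finset.mem_insert_self a s)).add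
      (ih fun i hi => h i (Finset.mem_insert_of_mem hi))
    have e : (fun x => ∑ i ∈ insert a s, F i x) = fun x => F a x + ∑ i ∈ s, F i x := by
      funext x
      rw [Finset.sum_insert ha]
    rw [e]
    exact h1

theorem ClassFun.inSpan_aux (n : ℕ) : ∀ F : Γ → ℤ, ClassFun F →
    (∀ x, n < addOrderOf x → F x = 0) → InSpan F := by
  classical
  induction n with
  | zero =>
    intro F _ h0
    have e : F = fun _ => 0 := by
      funext x
      exact h0 x (addOrderOf_pos x)
    rw [e]
    exact InSpan.zero
  | succ n ih =>
    intro F hF h0
    -- a generator of each cyclic subgroup of order `n + 1`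
    let P : AddSubgroup Γ → Prop := fun K => ∃ x, AddSubgroup.zmultiples x = K ∧ addOrderOf x = n + 1
    let gen : AddSubgroup Γ → Γ := fun K => if h : P K then h.choose else 0
    have hgen : ∀ K, P K → AddSubgroup.zmultiples (gen K) = K ∧ addOrderOf (gen K) = n + 1 := by
      intro K hK
      have e : gen K = hK.choose := dif_pos hK
      rw [e]
      exact hK.choose_spec
    let S : Γ → ℤ := fun x => ∑ K ∈ (Finset.univ.filter P), if x ∈ K then F (gen K) else 0
    have hS : InSpan S := InSpan.sum _ _ fun K _ => InSpan.smul_ind _ _
    have hmem : ∀ x y : Γ, AddSubgroup.zmultiples x = AddSubgroup.zmultiples y →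
        ∀ K : AddSubgroup Γ, x ∈ K ↔ y ∈ K := by
      intro x y h K
      rw [← AddSubgroup.zmultiples_le, ← AddSubgroup.zmultiples_le, h]
    have hcl : ClassFun (fun x => F x + -1 * S x) := by
      intro x y h
      have h1 : S x = S y := by
        refine Finset.sum_congr rfl fun K _ => ?_
        have := hmem x y h K
        by_cases hx : x ∈ K
        · rw [if_pos hx, if_pos (this.1 hx)]
        · rw [if_neg hx, if_neg (fun hy => hx (this.2 hy))]
      show F x + -1 * S x = F y + -1 * S y
      rw [hF x y h, h1]
    have hcard : ∀ (x : Γ) (K : AddSubgroup Γ), P K → x ∈ K →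
        addOrderOf x ≤ n + 1 ∧ (addOrderOf x = n + 1 → AddSubgroup.zmultiples x = K) := by
      intro x K hK hx
      obtain ⟨g, hg, hgo⟩ := hK
      have hle : AddSubgroup.zmultiples x ≤ K := by
        rw [AddSubgroup.zmultiples_le]; exact hx
      have hcK : Nat.card K = n + 1 := by
        rw [← hg, Nat.card_zmultiples, hgo]
      have hcx : Nat.card (AddSubgroup.zmultiples x) = addOrderOf x := Nat.card_zmultiples x
      refine ⟨?_, ?_⟩
      · rw [← hcK, ← hcx]
        exact AddSubgroup.card_le_of_le hle
      · intro hx1
        apply AddSubgroup.eq_of_le_of_card_ge hle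
        rw [hcK, hcx, hx1]
    have h1 : ∀ x, n < addOrderOf x → F x + -1 * S x = 0 := by
      intro x hx
      by_cases hx1 : addOrderOf x = n + 1
      · have hP : P (AddSubgroup.zmultiples x) := ⟨x, rfl, hx1⟩
        have e : S x = F x := by
          show (∑ K ∈ (Finset.univ.filter P), if x ∈ K then F (gen K) else 0) = F x
          rw [Finset.sum_eq_single (AddSubgroup.zmultiples x)]
          · rw [if_pos (AddSubgroup.mem_zmultiples x)]
            exact hF _ _ (hgen _ hP).1
          · intro K hK hne
            rw [if_neg]
            intro hxK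
            exact hne ((hcard x K (Finset.mem_filter.1 hK).2 hxK).2 hx1).symm
          · intro hne
            exact absurd (Finset.mem_filter.2 ⟨Finset.mem_univ _, hP⟩) hne
        rw [e]; ring
      · have hx2 : n + 1 < addOrderOf x := by omega
        have e : S x = 0 := by
          apply Finset.sum_eq_zero
          intro K hK
          rw [if_neg]
          intro hxK
          have := (hcard x K (Finset.mem_filter.1 hK).2 hxK).1
          omega
        rw [h0 x hx2, e]; ring
    have h2 := (ih _ hcl h1).add hS
    have e : F = fun x => (F x + -1 * S x) + S x := by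
      funext x; ring
    rw [e]
    exact h2

/-- A class function is an integral combination of indicator functions of subgroups. -/
theorem ClassFun.inSpan {F : Γ → ℤ} (hF : ClassFun F) : InSpan F :=
  ClassFun.inSpan_aux (Fintype.card Γ) F hF fun x hx => by
    have := addOrderOf_le_card_univ (x := x)
    omega

end Pool.Agent.UMix
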