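import Pool.Agent.UMix.Flat

/-!
# Eigenvalues and integrality
-/

set_option autoImplicit false

open Finset

namespace Pool.Agent.UMix

open Pool.Agent.Lib_helper58.CayleyUM

/-- enough room for the coordinates -/
theorem exists_phi {N m : ℕ} (h : N * 3 + 1 ≤ m) : ∃ φ : Fin m → Fin N × Fin 3 → Fin m,
    (∀ j, Function.Injective (φ j)) ∧ ∀ j s, φ j s ≠ j := by
  obtain ⟨m', rfl⟩ : ∃ m', m = m' + 1 := ⟨m - 1, by omega⟩
  have h' : N * 3 ≤ m' := by omega
  refine ⟨fun j s => j.succAbove (Fin.castLE h' (finProdFinEquiv s)), ?_, ?_⟩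
  · intro j s s' hs
    have h1 := Fin.succAbove_right_injective hs
    have h2 := Fin.castLE_injective h' h1
    exact finProdFinEquiv.injective h2
  · intro j s
    exact Fin.succAbove_ne j _

section eig

variable {G : Type*} [AddCommGroup G] [Fintype G] [DecidableEq G]

/-- every eigenvalue is a character sum -/
theorem eig_eq_lam (C : Finset G) (μ : ℂ) (v : G → ℂ) (hv : v ≠ 0)
    (h : (adj C).mulVec v = μ • v) : ∃ ψ : AddChar G ℂ, μ = lam C ψ := by
  have h0 : ∀ x, ∑ c ∈ C, v (x + c) = μ * v x := by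
    intro x
    have h1 := congrFun h x
    simp only [adj, Matrix.mulVec, dotProduct, Matrix.of_apply, Pi.smul_apply, smul_eq_mul] at h1
    rw [← h1]
    have h2 : ∑ y, (if y - x ∈ C then (1 : ℂ) else 0) * v y
        = ∑ z, (if z ∈ C then (1 : ℂ) else 0) * v (x + z) := by
      refine (Fintype.sum_equiv (Equiv.addLeft x) _ _ ?_).symm
      intro z
      simp
    rw [h2]
    simp only [ite_mul, one_mul, zero_mul]
    rw [Finset.sum_ite_mem, Finset.univ_inter]
  by_contra hne
  push Not at hne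
  apply hv
  have h1 : ∀ ψ : AddChar G ℂ, ∑ x, v x * ψ (-x) = 0 := by
    intro ψ
    have h2 : μ * ∑ x, v x * ψ (-x) = lam C ψ * ∑ x, v x * ψ (-x) := by
      rw [Finset.mul_sum]
      have h3 : ∀ x, μ * (v x * ψ (-x)) = ∑ c ∈ C, v (x + c) * ψ (-x) := by
        intro x
        rw [← mul_assoc, ← h0 x, Finset.sum_mul]
      rw [Finset.sum_congr rfl fun x _ => h3 x, Finset.sum_comm]
      unfold lam
      rw [Finset.sum_mul]
      refine Finset.sum_congr rfl fun c _ => ?_
      rw [Finset.mul_sum]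
      refine Fintype.sum_equiv (Equiv.addRight c) _ _ ?_
      intro x
      show v (x + c) * ψ (-x) = ψ c * (v (x + c) * ψ (-(x + c)))
      have : ψ (-x) = ψ c * ψ (-(x + c)) := by
        rw [← AddChar.map_add_eq_mul]
        congr 1
        abel
      rw [this]
      ring
    have h4 : (μ - lam C ψ) * ∑ x, v x * ψ (-x) = 0 := by
      rw [sub_mul, h2, sub_self]
    rcases mul_eq_zero.1 h4 with h5 | h5
    · exact absurd (sub_eq_zero.1 h5) (hne ψ)
    · exact h5
  funext y
  have h6 : ∑ ψ : AddChar G ℂ, (∑ x, v x * ψ (-x)) * ψ y = (Fintype.card G : ℂ) * v y := by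
    simp_rw [Finset.sum_mul]
    rw [Finset.sum_comm]
    have h7 : ∀ x, ∑ ψ : AddChar G ℂ, v x * ψ (-x) * ψ y
        = if x = y then (Fintype.card G : ℂ) * v x else 0 := by
      intro x
      have h8 : ∀ ψ : AddChar G ℂ, v x * ψ (-x) * ψ y = v x * ψ (y - x) := by
        intro ψ
        rw [mul_assoc, ← AddChar.map_add_eq_mul]
        congr 2
        abel
      rw [Finset.sum_congr rfl fun ψ _ => h8 ψ, ← Finset.mul_sum, AddChar.sum_apply_eq_ite]
      by_cases hxy : x = y
      · simp [hxy, mul_comm]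
      · have : y - x ≠ 0 := fun hh => hxy (sub_eq_zero.1 hh).symm
        simp [hxy, this]
    rw [Finset.sum_congr rfl fun x _ => h7 x, Finset.sum_ite_eq' Finset.univ y,
      if_pos (Finset.mem_univ y)]
  rw [Finset.sum_congr rfl fun ψ _ => by rw [h1 ψ, zero_mul], Finset.sum_const_zero] at h6
  have hc : (Fintype.card G : ℂ) ≠ 0 := Nat.cast_ne_zero.2 Fintype.card_ne_zero
  rcases mul_eq_zero.1 h6.symm with h7 | h7
  · exact absurd h7 hc
  · exact h7

/-- every character sum is an eigenvalue -/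
theorem lam_eig (C : Finset G) (ψ : AddChar G ℂ) : ∃ v : G → ℂ, v ≠ 0 ∧
    (adj C).mulVec v = lam C ψ • v := by
  refine ⟨fun x => ψ x, ?_, adj_mulVec C ψ⟩
  intro h
  have h1 := congrFun h 0
  simp at h1

end eig

/-- `z + z⁻¹` is an integer for the roots of unity of order dividing 4 or 6 -/
theorem add_inv_int (z : ℂ) (h : z ^ 6 = 1 ∨ z ^ 4 = 1) : ∃ k : ℤ, z + z⁻¹ = k := by
  have hz : z ≠ 0 := by
    rintro rfl
    rcases h with h | h <;> norm_num at h
  rcases h with h | h
  · have e : (z - 1) * ((z + 1) * ((z ^ 2 + z + 1) * (z ^ 2 - z + 1))) = 0 := by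
      have : (z - 1) * ((z + 1) * ((z ^ 2 + z + 1) * (z ^ 2 - z + 1))) = z ^ 6 - 1 := by ring
      rw [this, h, sub_self]
    rcases mul_eq_zero.1 e with h1 | h1
    · refine ⟨2, ?_⟩
      have : z = 1 := sub_eq_zero.1 h1
      rw [this]; norm_num
    · rcases mul_eq_zero.1 h1 with h2 | h2
      · refine ⟨-2, ?_⟩
        have : z = -1 := eq_neg_of_add_eq_zero_left h2
        rw [this]; norm_num
      · rcases mul_eq_zero.1 h2 with h3 | h3
        · refine ⟨-1, ?_⟩
          field_simp
          push_cast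
          linear_combination h3
        · refine ⟨1, ?_⟩
          field_simp
          push_cast
          linear_combination h3
  · have e : (z - 1) * ((z + 1) * (z ^ 2 + 1)) = 0 := by
      have : (z - 1) * ((z + 1) * (z ^ 2 + 1)) = z ^ 4 - 1 := by ring
      rw [this, h, sub_self]
    rcases mul_eq_zero.1 e with h1 | h1
    · refine ⟨2, ?_⟩
      have : z = 1 := sub_eq_zero.1 h1
      rw [this]; norm_num
    · rcases mul_eq_zero.1 h1 with h2 | h2
      · refine ⟨-2, ?_⟩
        have : z = -1 := eq_neg_of_add_eq_zero_left h2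
        rw [this]; norm_num
      · refine ⟨0, ?_⟩
        field_simp
        push_cast
        linear_combination h2

/-- For `q = 2, 3, 4, 6` all eigenvalues are integers. -/
theorem integral_small {q d : ℕ} [NeZero q] (hq : q = 2 ∨ q = 3 ∨ q = 4 ∨ q = 6)
    (C : Finset (Fin d → ZMod q)) (hC : ∀ c ∈ C, -c ∈ C)
    (ψ : AddChar (Fin d → ZMod q) ℂ) : ∃ k : ℤ, lam C ψ = k := by
  have hpow : ∀ c, ψ c ^ q = 1 := by
    intro c
    rw [← AddChar.map_nsmul_eq_pow]
    have : q • c = 0 := by
      funext i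
      simp
    rw [this, AddChar.map_zero_eq_one]
  have h46 : ∀ c, ψ c ^ 6 = 1 ∨ ψ c ^ 4 = 1 := by
    intro c
    have h := hpow c
    rcases hq with rfl | rfl | rfl | rfl
    · right
      rw [show (4 : ℕ) = 2 * 2 from rfl, pow_mul, h, one_pow]
    · left
      rw [show (6 : ℕ) = 3 * 2 from rfl, pow_mul, h, one_pow]
    · right; exact h
    · left; exact h
  have h1 : ∀ c, ∃ k : ℤ, ψ c + ψ (-c) = k := by
    intro c
    rw [AddChar.map_neg_eq_inv]
    exact add_inv_int _ (h46 c)
  choose k hk using h1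
  have h2 : 2 * lam C ψ = ((∑ c ∈ C, k c : ℤ) : ℂ) := by
    have h3 : lam C ψ = ∑ c ∈ C, ψ (-c) := by
      unfold lam
      exact Finset.sum_bij' (fun x _ => -x) (fun x _ => -x) (fun x hx => hC x hx)
        (fun x hx => hC x hx) (fun x _ => neg_neg x) (fun x _ => neg_neg x)
        (fun x _ => by rw [neg_neg])
    have h4 : 2 * lam C ψ = lam C ψ + ∑ c ∈ C, ψ (-c) := by
      rw [← h3]; ring
    rw [h4]
    unfold lam
    rw [← Finset.sum_add_distrib, Int.cast_sum]
    exact Finset.sum_congr rfl fun c _ => hk c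
  have h5 : IsIntegral ℤ (lam C ψ) := by
    unfold lam
    refine IsIntegral.sum _ fun c _ => ?_
    refine IsIntegral.of_pow (Nat.pos_of_ne_zero (NeZero.ne q)) ?_
    rw [hpow c]
    exact isIntegral_one
  set K : ℤ := ∑ c ∈ C, k c with hK
  have h6 : lam C ψ = algebraMap ℚ ℂ ((K : ℚ) / 2) := by
    have h7 : lam C ψ = (K : ℂ) / 2 := by
      rw [eq_div_iff (two_ne_zero), mul_comm]
      exact h2
    rw [h7]
    simp
  rw [h6] at h5
  have h8 : IsIntegral ℤ ((K : ℚ) / 2) :=
    (isIntegral_algebraMap_iff (algebraMap ℚ ℂ).injective).1 h5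
  obtain ⟨y, hy⟩ := IsIntegrallyClosed.isIntegral_iff.1 h8
  refine ⟨y, ?_⟩
  rw [h6, ← hy]
  simp

/-- `2 cos (2π/q)` is not an integer for `q = 5` and `q ≥ 7`. -/
theorem cos_not_int {q : ℕ} (hq : q = 5 ∨ 7 ≤ q) (k : ℤ) :
    2 * Real.cos (2 * Real.pi / q) ≠ k := by
  intro h
  have hpi := Real.pi_pos
  rcases hq with rfl | hq
  · have h1 : Real.cos (2 * Real.pi / (5 : ℕ)) < 1 / 2 := by
      rw [← Real.cos_pi_div_three]
      apply Real.cos_lt_cos_of_nonneg_of_le_pi
      · positivity
      · push_cast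
        linarith
      · push_cast
        linarith
    have h2 : 0 < Real.cos (2 * Real.pi / (5 : ℕ)) := by
      apply Real.cos_pos_of_mem_Ioo
      constructor
      · have : 0 < 2 * Real.pi / ((5 : ℕ) : ℝ) := by positivity
        linarith
      · push_cast
        linarith
    have h3 : (0 : ℝ) < (k : ℝ) := by rw [← h]; linarith
    have h4 : (k : ℝ) < 1 := by rw [← h]; linarith
    have h5 : 0 < k := by exact_mod_cast h3
    have h6 : k < 1 := by exact_mod_cast h4
    omega
  · have hq7 : (7 : ℝ) ≤ q := by exact_mod_cast hq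
    have hq0 : (0 : ℝ) < q := by linarith
    have hang : 2 * Real.pi / q < Real.pi / 3 := by
      rw [div_lt_div_iff₀ hq0 (by norm_num)]
      nlinarith
    have hang0 : 0 < 2 * Real.pi / q := by positivity
    have h1 : 1 / 2 < Real.cos (2 * Real.pi / q) := by
      rw [← Real.cos_pi_div_three]
      apply Real.cos_lt_cos_of_nonneg_of_le_pi hang0.le
      · linarith
      · exact hang
    have h2 : Real.cos (2 * Real.pi / q) < 1 := by
      rw [← Real.cos_zero]
      apply Real.cos_lt_cos_of_nonneg_of_le_pi (le_refl 0)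
      · linarith
      · exact hang0
    have h3 : (1 : ℝ) < (k : ℝ) := by rw [← h]; linarith
    have h4 : (k : ℝ) < 2 := by rw [← h]; linarith
    have h5 : 1 < k := by exact_mod_cast h3
    have h6 : k < 2 := by exact_mod_cast h4
    omega

end Pool.Agent.UMix
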