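import Pool.Agent.UMix.Eig

/-!
# The family of graphs
-/

set_option autoImplicit false

open Finset

namespace Pool.Agent.UMix

open Pool.Agent.Lib_helper58.CayleyUM

theorem append_mem_CC {q m N : ℕ} [NeZero q] (φ : Fin m → Fin N × Fin 3 → Fin m)
    (Hs : Fin N → AddSubgroup (ZMod q × ZMod q)) (D : Finset (Fin m → ZMod q))
    (x : Fin m → ZMod q) :
    Fin.append x (0 : Fin m → ZMod q) ∈ CC φ Hs D ↔ x ∈ D := by
  unfold CC
  rw [Finset.mem_union]
  constructor
  · rintro (h | h)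
    · exfalso
      obtain ⟨p, hp, h0⟩ := Finset.mem_image.1 h
      apply vec_right_ne φ Hs p hp
      rw [h0, Fin.append_right]
      rfl
    · obtain ⟨y, hy, h0⟩ := Finset.mem_image.1 h
      rw [append_injective h0] at hy
      exact hy
  · intro h
    exact Or.inr (Finset.mem_image.2 ⟨x, h, rfl⟩)

/-- The family. -/
theorem family (q : ℕ) [NeZero q] : ∃ m₀ : ℕ, ∀ m ≥ m₀, ∀ D : Finset (Fin m → ZMod q),
    (0 : Fin m → ZMod q) ∉ D → (∀ x ∈ D, -x ∈ D) →
    ∃ C : Finset (Fin (m + m) → ZMod q), (0 : Fin (m + m) → ZMod q) ∉ C ∧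
      (∀ c ∈ C, -c ∈ C) ∧
      (∀ a b, (q : ℝ) ^ m * ‖walk C (Complex.I * (tt q : ℂ)) a b‖ = 1) ∧
      (∀ x : Fin m → ZMod q, Fin.append x (0 : Fin m → ZMod q) ∈ C ↔ x ∈ D) ∧
      ∀ u w : Fin m → ZMod q, ∃ k : ℤ,
        lam C (chr (Fin.append u w)) = (k : ℂ) + lam D (chr u) := by
  obtain ⟨N, Hs, hHs⟩ := exists_family (q := q)
  refine ⟨N * 3 + 1, fun m hm D hD0 hD => ?_⟩
  obtain ⟨φ, hφ, hj⟩ := exists_phi (N := N) (m := m) hm
  refine ⟨CC φ Hs D, zero_notMem φ Hs D hD0, neg_mem φ Hs D hD, walk_norm hφ hj hHs D hD,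
    append_mem_CC φ Hs D, fun u w => ⟨Li φ Hs u w, ?_⟩⟩
  exact lam_eq hφ hj Hs D u w

/-- the connection set `{±e₁}` -/
theorem pair_spec {q m : ℕ} [NeZero q] (hq : 3 ≤ q) (hm : 1 ≤ m) :
    ∃ D : Finset (Fin m → ZMod q), (0 : Fin m → ZMod q) ∉ D ∧ (∀ x ∈ D, -x ∈ D) ∧
      ∃ u : Fin m → ZMod q, lam D (chr u) = ((2 * Real.cos (2 * Real.pi / q) : ℝ) : ℂ) := by
  classical
  have : Fact (1 < q) := ⟨by omega⟩
  let e : Fin m → ZMod q := Pi.single ⟨0, hm⟩ 1
  have he : e ≠ 0 := by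
    intro h
    have := congrFun h ⟨0, hm⟩
    simp [e] at this
  have hee : e ≠ -e := by
    intro h
    have h1 := congrFun h ⟨0, hm⟩
    have h2 : (1 : ZMod q) = -1 := by simpa [e] using h1
    have h3 : ((2 : ℕ) : ZMod q) = 0 := by
      push_cast
      have : (1 : ZMod q) + 1 = 0 := by
        nth_rewrite 1 [h2]
        exact neg_add_cancel 1
      rw [← this]; norm_num
    rw [ZMod.natCast_eq_zero_iff] at h3
    have := Nat.le_of_dvd (by norm_num) h3
    omega
  refine ⟨{e, -e}, ?_, ?_, e, ?_⟩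
  · simp only [Finset.mem_insert, Finset.mem_singleton]
    rintro (h | h)
    · exact he h.symm
    · exact he (neg_eq_zero.1 h.symm)
  · intro x hx
    simp only [Finset.mem_insert, Finset.mem_singleton] at hx ⊢
    rcases hx with rfl | rfl
    · right; rfl
    · left; exact neg_neg e
  · unfold lam
    rw [Finset.sum_pair hee]
    have h1 : chr e e = (ZMod.stdAddChar (1 : ZMod q) : ℂ) := by
      rw [chr_apply]
      congr 1
      rw [Finset.sum_eq_single (⟨0, hm⟩ : Fin m)]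
      · simp [e]
      · intro j _ hne
        simp [e, Pi.single_eq_of_ne hne]
      · intro hh
        exact absurd (Finset.mem_univ _) hh
    have h2 : chr e (-e) = (ZMod.stdAddChar (1 : ZMod q) : ℂ)⁻¹ := by
      rw [AddChar.map_neg_eq_inv, h1]
    rw [h1, h2]
    have h3 : (ZMod.stdAddChar (1 : ZMod q) : ℂ)
        = Complex.exp (((2 * Real.pi / q : ℝ) : ℂ) * Complex.I) := by
      have := ZMod.stdAddChar_coe (N := q) 1
      rw [Int.cast_one] at this
      rw [this]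
      congr 1
      push_cast
      ring
    rw [h3, ← Complex.exp_neg]
    push_cast
    rw [Complex.two_cos]
    congr 2
    ring

end Pool.Agent.UMix
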