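import Pool.Agent.UMix.Perp

/-!
# The connection sets
-/

set_option autoImplicit false

open Finset

namespace Pool.Agent.UMix

variable {q : ℕ} [NeZero q] {m N : ℕ}

/-- first half of the vector with the data `j, σ, z, y` -/
def v1 (φ : Fin m → Fin N × Fin 3 → Fin m) (j : Fin m) (σ : Fin N) (z : ZMod q × ZMod q)
    (y : Fin 3 → ZMod q) : Fin m → ZMod q :=
  fun i => (if i = j then z.1 else 0) + ∑ l, if i = φ j (σ, l) then y l else 0

/-- second half -/
def v2 (j : Fin m) (z : ZMod q × ZMod q) : Fin m → ZMod q :=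
  fun i => if i = j then z.2 else 0

omit [NeZero q] in
theorem v1_phi {φ : Fin m → Fin N × Fin 3 → Fin m} (hφ : ∀ j, Function.Injective (φ j))
    (hj : ∀ j s, φ j s ≠ j) (j : Fin m) (σ τ : Fin N) (z : ZMod q × ZMod q)
    (y : Fin 3 → ZMod q) (l : Fin 3) :
    v1 φ j σ z y (φ j (τ, l)) = if τ = σ then y l else 0 := by
  unfold v1
  rw [if_neg (hj j _), zero_add]
  by_cases h : τ = σ
  · subst h
    rw [if_pos rfl, Finset.sum_eq_single l]
    · rw [if_pos rfl]
    · intro l' _ hne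
      rw [if_neg]
      intro hh
      have := hφ j hh
      exact hne (congrArg Prod.snd this).symm
    · intro hh
      exact absurd (Finset.mem_univ l) hh
  · rw [if_neg h]
    apply Finset.sum_eq_zero
    intro l' _
    rw [if_neg]
    intro hh
    exact h (congrArg Prod.fst (hφ j hh))

omit [NeZero q] in
theorem v1_self {φ : Fin m → Fin N × Fin 3 → Fin m}
    (hj : ∀ j s, φ j s ≠ j) (j : Fin m) (σ : Fin N) (z : ZMod q × ZMod q)
    (y : Fin 3 → ZMod q) :
    v1 φ j σ z y j = z.1 := by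
  unfold v1
  rw [if_pos rfl]
  have : ∑ l, (if j = φ j (σ, l) then y l else 0) = 0 := by
    apply Finset.sum_eq_zero
    intro l _
    rw [if_neg]
    intro hh
    exact hj j _ hh.symm
  rw [this, add_zero]

omit [NeZero q] in
theorem dot_v1 (φ : Fin m → Fin N × Fin 3 → Fin m) (j : Fin m) (σ : Fin N)
    (z : ZMod q × ZMod q) (y : Fin 3 → ZMod q) (u : Fin m → ZMod q) :
    ∑ i, u i * v1 φ j σ z y i = u j * z.1 + ∑ l, u (φ j (σ, l)) * y l := by
  unfold v1
  simp_rw [mul_add, Finset.mul_sum, mul_ite, mul_zero]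
  rw [Finset.sum_add_distrib, Finset.sum_ite_eq' Finset.univ j, if_pos (Finset.mem_univ j),
    Finset.sum_comm]
  congr 1
  refine Finset.sum_congr rfl fun l _ => ?_
  rw [Finset.sum_ite_eq' Finset.univ (φ j (σ, l)), if_pos (Finset.mem_univ _)]

omit [NeZero q] in
theorem dot_v2 (j : Fin m) (z : ZMod q × ZMod q) (w : Fin m → ZMod q) :
    ∑ i, w i * v2 j z i = w j * z.2 := by
  unfold v2
  simp_rw [mul_ite, mul_zero]
  rw [Finset.sum_ite_eq' Finset.univ j, if_pos (Finset.mem_univ j)]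

omit [NeZero q] in
theorem dot_append (u w a b : Fin m → ZMod q) :
    ∑ i : Fin (m + m), Fin.append u w i * Fin.append a b i
      = ∑ i, u i * a i + ∑ i, w i * b i := by
  rw [Fin.sum_univ_add]
  simp_rw [Fin.append_left, Fin.append_right]

/-- the vector with the data `p` -/
def vec (φ : Fin m → Fin N × Fin 3 → Fin m)
    (p : Fin m × Fin N × (ZMod q × ZMod q) × (Fin 3 → ZMod q)) : Fin (m + m) → ZMod q :=
  Fin.append (v1 φ p.1 p.2.1 p.2.2.1 p.2.2.2) (v2 p.1 p.2.2.1)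

open Classical in
/-- the admissible data -/
noncomputable def Pset (Hs : Fin N → AddSubgroup (ZMod q × ZMod q)) :
    Finset (Fin m × Fin N × (ZMod q × ZMod q) × (Fin 3 → ZMod q)) :=
  Finset.univ.filter fun p => p.2.2.1 ∈ Hs p.2.1 ∧ p.2.2.1.2 ≠ 0 ∧ p.2.2.2 ≠ 0

theorem mem_Pset (Hs : Fin N → AddSubgroup (ZMod q × ZMod q))
    (p : Fin m × Fin N × (ZMod q × ZMod q) × (Fin 3 → ZMod q)) :
    p ∈ Pset Hs ↔ p.2.2.1 ∈ Hs p.2.1 ∧ p.2.2.1.2 ≠ 0 ∧ p.2.2.2 ≠ 0 := by
  unfold Pset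
  simp

theorem vec_injOn {φ : Fin m → Fin N × Fin 3 → Fin m} (hφ : ∀ j, Function.Injective (φ j))
    (hj : ∀ j s, φ j s ≠ j) (Hs : Fin N → AddSubgroup (ZMod q × ZMod q)) :
    Set.InjOn (vec φ) (↑(Pset (m := m) Hs) :
      Set (Fin m × Fin N × (ZMod q × ZMod q) × (Fin 3 → ZMod q))) := by
  rintro ⟨j, σ, z, y⟩ hp ⟨j', σ', z', y'⟩ hp' h
  have hp1 := (mem_Pset Hs _).1 (Finset.mem_coe.1 hp)
  have hp2 := (mem_Pset Hs _).1 (Finset.mem_coe.1 hp')
  obtain ⟨-, hz, hy⟩ := hp1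
  obtain ⟨-, hz', -⟩ := hp2
  simp only at hz hy hz'
  unfold vec at h
  simp only at h
  have h1 : ∀ i, v1 φ j σ z y i = v1 φ j' σ' z' y' i := by
    intro i
    have := congrFun h (Fin.castAdd m i)
    rwa [Fin.append_left, Fin.append_left] at this
  have h2 : ∀ i, v2 j z i = v2 j' z' i := by
    intro i
    have := congrFun h (Fin.natAdd m i)
    rwa [Fin.append_right, Fin.append_right] at this
  have hjj : j = j' := by
    by_contra hne
    have := h2 j
    unfold v2 at this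
    rw [if_pos rfl, if_neg hne] at this
    exact hz this
  subst hjj
  have hz2 : z.2 = z'.2 := by
    have := h2 j
    unfold v2 at this
    rwa [if_pos rfl, if_pos rfl] at this
  have hz1 : z.1 = z'.1 := by
    have := h1 j
    rwa [v1_self hj, v1_self hj] at this
  have hzz : z = z' := Prod.ext hz1 hz2
  obtain ⟨l, hl⟩ : ∃ l, y l ≠ 0 := by
    by_contra hh
    push Not at hh
    exact hy (funext hh)
  have hσ : σ = σ' := by
    by_contra hne
    have := h1 (φ j (σ, l))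
    rw [v1_phi hφ hj, v1_phi hφ hj, if_pos rfl, if_neg hne] at this
    exact hl this
  subst hσ
  have hyy : y = y' := by
    funext l'
    have := h1 (φ j (σ, l'))
    rwa [v1_phi hφ hj, v1_phi hφ hj, if_pos rfl, if_pos rfl] at this
  rw [hzz, hyy]

/-- the connection set -/
noncomputable def CC (φ : Fin m → Fin N × Fin 3 → Fin m)
    (Hs : Fin N → AddSubgroup (ZMod q × ZMod q)) (D : Finset (Fin m → ZMod q)) :
    Finset (Fin (m + m) → ZMod q) :=
  (Pset Hs).image (vec φ) ∪ D.image (fun x => Fin.append x 0)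

omit [NeZero q] in
theorem append_injective : Function.Injective (fun x : Fin m → ZMod q =>
    (Fin.append x (0 : Fin m → ZMod q))) := by
  intro x x' h
  funext i
  have := congrFun h (Fin.castAdd m i)
  simp only at this
  rwa [Fin.append_left, Fin.append_left] at this

theorem vec_right_ne (φ : Fin m → Fin N × Fin 3 → Fin m)
    (Hs : Fin N → AddSubgroup (ZMod q × ZMod q))
    (p : Fin m × Fin N × (ZMod q × ZMod q) × (Fin 3 → ZMod q)) (hp : p ∈ Pset Hs) :
    vec φ p (Fin.natAdd m p.1) ≠ 0 := by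
  unfold vec
  rw [Fin.append_right]
  unfold v2
  rw [if_pos rfl]
  exact ((mem_Pset Hs _).1 hp).2.1

theorem disj (φ : Fin m → Fin N × Fin 3 → Fin m)
    (Hs : Fin N → AddSubgroup (ZMod q × ZMod q)) (D : Finset (Fin m → ZMod q)) :
    Disjoint ((Pset Hs).image (vec φ)) (D.image (fun x => Fin.append x 0)) := by
  rw [Finset.disjoint_left]
  intro c hc hc'
  obtain ⟨p, hp, rfl⟩ := Finset.mem_image.1 hc
  obtain ⟨x, _, hx⟩ := Finset.mem_image.1 hc'
  apply vec_right_ne φ Hs p hp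
  rw [← hx, Fin.append_right]
  rfl

theorem zero_notMem (φ : Fin m → Fin N × Fin 3 → Fin m)
    (Hs : Fin N → AddSubgroup (ZMod q × ZMod q)) (D : Finset (Fin m → ZMod q))
    (hD : (0 : Fin m → ZMod q) ∉ D) : (0 : Fin (m + m) → ZMod q) ∉ CC φ Hs D := by
  unfold CC
  rw [Finset.mem_union]
  rintro (h | h)
  · obtain ⟨p, hp, h0⟩ := Finset.mem_image.1 h
    apply vec_right_ne φ Hs p hp
    rw [h0]
    rfl
  · obtain ⟨x, hx, h0⟩ := Finset.mem_image.1 h
    have : x = 0 := by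
      funext i
      have := congrFun h0 (Fin.castAdd m i)
      rwa [Fin.append_left] at this
    rw [this] at hx
    exact hD hx

omit [NeZero q] in
theorem neg_append (a b : Fin m → ZMod q) : -Fin.append a b = Fin.append (-a) (-b) := by
  funext i
  refine Fin.addCases (fun i => ?_) (fun i => ?_) i
  · rw [Pi.neg_apply, Fin.append_left, Fin.append_left, Pi.neg_apply]
  · rw [Pi.neg_apply, Fin.append_right, Fin.append_right, Pi.neg_apply]

omit [NeZero q] in
theorem neg_vec (φ : Fin m → Fin N × Fin 3 → Fin m)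
    (p : Fin m × Fin N × (ZMod q × ZMod q) × (Fin 3 → ZMod q)) :
    -vec φ p = vec φ (p.1, p.2.1, -p.2.2.1, -p.2.2.2) := by
  unfold vec
  rw [neg_append]
  congr 1
  · funext i
    simp only [v1, Pi.neg_apply, Prod.fst_neg, neg_add]
    congr 1
    · split_ifs <;> simp
    · rw [← Finset.sum_neg_distrib]
      refine Finset.sum_congr rfl fun l _ => ?_
      split_ifs <;> simp
  · funext i
    simp only [v2, Pi.neg_apply, Prod.snd_neg]
    split_ifs <;> simp

theorem neg_mem (φ : Fin m → Fin N × Fin 3 → Fin m)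
    (Hs : Fin N → AddSubgroup (ZMod q × ZMod q)) (D : Finset (Fin m → ZMod q))
    (hD : ∀ x ∈ D, -x ∈ D) (c : Fin (m + m) → ZMod q) (hc : c ∈ CC φ Hs D) :
    -c ∈ CC φ Hs D := by
  unfold CC at hc ⊢
  rw [Finset.mem_union] at hc ⊢
  rcases hc with h | h
  · left
    obtain ⟨p, hp, rfl⟩ := Finset.mem_image.1 h
    rw [neg_vec]
    refine Finset.mem_image.2 ⟨_, ?_, rfl⟩
    rw [mem_Pset] at hp ⊢
    refine ⟨(Hs p.2.1).neg_mem hp.1, ?_, ?_⟩
    · show -p.2.2.1.2 ≠ 0
      exact neg_ne_zero.2 hp.2.1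
    · show -p.2.2.2 ≠ 0
      exact neg_ne_zero.2 hp.2.2
  · right
    obtain ⟨x, hx, rfl⟩ := Finset.mem_image.1 h
    refine Finset.mem_image.2 ⟨-x, hD x hx, ?_⟩
    rw [neg_append, neg_zero]

/-- the elements with second coordinate `0` -/
def H0 (H : AddSubgroup (ZMod q × ZMod q)) : AddSubgroup (ZMod q × ZMod q) :=
  H ⊓ (AddMonoidHom.snd (ZMod q) (ZMod q)).ker

omit [NeZero q] in
theorem mem_H0 (H : AddSubgroup (ZMod q × ZMod q)) (z : ZMod q × ZMod q) :
    z ∈ H0 H ↔ z ∈ H ∧ z.2 = 0 := by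
  unfold H0
  rw [AddSubgroup.mem_inf, AddMonoidHom.mem_ker]
  rfl

theorem Ti_H0 (H : AddSubgroup (ZMod q × ZMod q)) (u w : ZMod q) :
    Ti (H0 H) (u, w) = Ti (H0 H) (u, 0) := by
  unfold Ti
  have h : (u, w) ∈ perp (H0 H) ↔ (u, (0 : ZMod q)) ∈ perp (H0 H) := by
    rw [mem_perp, mem_perp]
    refine forall₂_congr fun z hz => ?_
    have hz2 : z.2 = 0 := ((mem_H0 H z).1 hz).2
    unfold pr
    simp only [hz2, mul_zero]
  by_cases hh : (u, w) ∈ perp (H0 H)
  · rw [if_pos hh, if_pos (h.1 hh)]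
  · rw [if_neg hh, if_neg (fun h' => hh (h.2 h'))]

open Classical in
theorem sum_H (H : AddSubgroup (ZMod q × ZMod q)) (x : ZMod q × ZMod q) :
    (∑ z : ZMod q × ZMod q, if z ∈ H ∧ z.2 ≠ 0 then (ZMod.stdAddChar (pr x z) : ℂ) else 0)
      = ((Ti H x - Ti (H0 H) (x.1, 0) : ℤ) : ℂ) := by
  push_cast
  rw [← Ti_H0 H x.1 x.2, ← T_eq, ← T_eq]
  unfold T
  rw [← Finset.sum_sub_distrib]
  refine Finset.sum_congr rfl fun z _ => ?_
  by_cases h1 : z ∈ H
  · by_cases h2 : z.2 = 0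
    · have h3 : z ∈ H0 H := (mem_H0 H z).2 ⟨h1, h2⟩
      rw [if_neg (fun h => h.2 h2), if_pos h1, if_pos h3]
      simp
    · have h3 : z ∉ H0 H := fun h => h2 ((mem_H0 H z).1 h).2
      rw [if_pos ⟨h1, h2⟩, if_pos h1, if_neg h3]
      simp
  · have h3 : z ∉ H0 H := fun h => h1 ((mem_H0 H z).1 h).1
    rw [if_neg (fun h => h1 h.1), if_neg h1, if_neg h3]
    simp

theorem sum_Y (v : Fin 3 → ZMod q) :
    (∑ y : Fin 3 → ZMod q, if y ≠ 0 then (ZMod.stdAddChar (∑ l, v l * y l) : ℂ) else 0)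
      = (((q : ℤ) ^ 3 * (if v = 0 then 1 else 0) - 1 : ℤ) : ℂ) := by
  have h1 := sum_dot v
  rw [Fintype.card_fin] at h1
  have h2 : (∑ y : Fin 3 → ZMod q, if y ≠ 0 then (ZMod.stdAddChar (∑ l, v l * y l) : ℂ) else 0)
      = (∑ y : Fin 3 → ZMod q, (ZMod.stdAddChar (∑ l, v l * y l) : ℂ))
        - ∑ y : Fin 3 → ZMod q, if y = 0 then (ZMod.stdAddChar (∑ l, v l * y l) : ℂ) else 0 := by
    rw [← Finset.sum_sub_distrib]
    refine Finset.sum_congr rfl fun y _ => ?_
    by_cases hy : y = 0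
    · rw [if_neg (fun h => h hy), if_pos hy, sub_self]
    · rw [if_pos hy, if_neg hy, sub_zero]
  rw [h2, h1, Finset.sum_ite_eq' Finset.univ (0 : Fin 3 → ZMod q), if_pos (Finset.mem_univ _)]
  have h3 : (ZMod.stdAddChar (∑ l, v l * (0 : Fin 3 → ZMod q) l) : ℂ) = 1 := by
    simp
  rw [h3]
  split_ifs <;> push_cast <;> ring

/-- the integral part of the eigenvalue -/
noncomputable def Li (φ : Fin m → Fin N × Fin 3 → Fin m)
    (Hs : Fin N → AddSubgroup (ZMod q × ZMod q)) (u w : Fin m → ZMod q) : ℤ :=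
  ∑ j, ∑ σ, (Ti (Hs σ) (u j, w j) - Ti (H0 (Hs σ)) (u j, 0)) *
    ((q : ℤ) ^ 3 * (if (fun l => u (φ j (σ, l))) = 0 then 1 else 0) - 1)

theorem lam_eq {φ : Fin m → Fin N × Fin 3 → Fin m} (hφ : ∀ j, Function.Injective (φ j))
    (hj : ∀ j s, φ j s ≠ j) (Hs : Fin N → AddSubgroup (ZMod q × ZMod q))
    (D : Finset (Fin m → ZMod q)) (u w : Fin m → ZMod q) :
    ∑ c ∈ CC φ Hs D, (ZMod.stdAddChar (∑ i, Fin.append u w i * c i) : ℂ)
      = (Li φ Hs u w : ℂ) + ∑ x ∈ D, (ZMod.stdAddChar (∑ i, u i * x i) : ℂ) := by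
  classical
  unfold CC
  rw [Finset.sum_union (disj φ Hs D)]
  congr 1
  · rw [Finset.sum_image (fun p hp p' hp' h => vec_injOn hφ hj Hs hp hp' h)]
    unfold Pset
    rw [Finset.sum_filter]
    rw [Fintype.sum_prod_type]
    unfold Li
    push_cast
    refine Finset.sum_congr rfl fun j _ => ?_
    rw [Fintype.sum_prod_type]
    refine Finset.sum_congr rfl fun σ _ => ?_
    rw [Fintype.sum_prod_type]
    have e1 := sum_H (Hs σ) (u j, w j)
    have e2 := sum_Y (fun l => u (φ j (σ, l)))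
    push_cast at e1 e2
    rw [← e1, ← e2, Finset.sum_mul_sum]
    refine Finset.sum_congr rfl fun z _ => ?_
    refine Finset.sum_congr rfl fun y _ => ?_
    have e3 : (∑ i, Fin.append u w i * vec φ (j, σ, z, y) i)
        = pr (u j, w j) z + ∑ l, u (φ j (σ, l)) * y l := by
      unfold vec
      simp only
      rw [dot_append, dot_v1, dot_v2]
      unfold pr
      simp only
      ring
    rw [e3, AddChar.map_add_eq_mul]
    by_cases h1 : z ∈ Hs σ ∧ z.2 ≠ 0
    · by_cases h2 : y ≠ 0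
      · rw [if_pos ⟨h1.1, h1.2, h2⟩, if_pos h1, if_pos h2]
      · rw [if_neg (fun h => h2 h.2.2), if_neg h2, mul_zero]
    · rw [if_neg (fun h => h1 ⟨h.1, h.2.1⟩), if_neg h1, zero_mul]
  · rw [Finset.sum_image (fun x _ x' _ h => append_injective h)]
    refine Finset.sum_congr rfl fun x _ => ?_
    rw [dot_append]
    simp

end Pool.Agent.UMix
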