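import Pool.Agent.UMix.Constr
import Pool.Agent.Lib_helper58.CayleyUM

/-!
# Flatness of the walk at the time `2π/q³`
-/

set_option autoImplicit false

open Finset

namespace Pool.Agent.UMix

open Pool.Agent.Lib_helper58.CayleyUM

variable {q : ℕ} [NeZero q] {m N d : ℕ}

/-- the character `z ↦ e(⟨x, z⟩)` -/
noncomputable def chr (x : Fin d → ZMod q) : AddChar (Fin d → ZMod q) ℂ where
  toFun := fun z => ZMod.stdAddChar (∑ i, x i * z i)
  map_zero_eq_one' := by
    have : ∑ i, x i * (0 : Fin d → ZMod q) i = 0 := by simp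
    rw [this]
    exact AddChar.map_zero_eq_one _
  map_add_eq_mul' := by
    intro a b
    have : ∑ i, x i * (a + b) i = ∑ i, x i * a i + ∑ i, x i * b i := by
      rw [← Finset.sum_add_distrib]
      exact Finset.sum_congr rfl fun i _ => by rw [Pi.add_apply, mul_add]
    rw [this]
    exact AddChar.map_add_eq_mul _ _ _

theorem chr_apply (x z : Fin d → ZMod q) :
    chr x z = (ZMod.stdAddChar (∑ i, x i * z i) : ℂ) := rfl

theorem chr_injective : Function.Injective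
    (chr : (Fin d → ZMod q) → AddChar (Fin d → ZMod q) ℂ) := by
  intro x x' h
  funext i
  have h1 := DFunLike.congr_fun h (Pi.single i 1)
  rw [chr_apply, chr_apply] at h1
  have e : ∀ x : Fin d → ZMod q, ∑ j, x j * (Pi.single i 1 : Fin d → ZMod q) j = x i := by
    intro x
    rw [Finset.sum_eq_single i]
    · rw [Pi.single_eq_same, mul_one]
    · intro j _ hne
      rw [Pi.single_eq_of_ne hne, mul_zero]
    · intro hh
      exact absurd (Finset.mem_univ i) hh
  rw [e, e] at h1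
  exact ZMod.injective_stdAddChar h1

theorem chr_bijective : Function.Bijective
    (chr : (Fin d → ZMod q) → AddChar (Fin d → ZMod q) ℂ) := by
  classical
  rw [Fintype.bijective_iff_injective_and_card]
  exact ⟨chr_injective, (AddChar.card_eq).symm⟩

/-- the free real part of the eigenvalue -/
noncomputable def Dh (D : Finset (Fin m → ZMod q)) (u : Fin m → ZMod q) : ℂ :=
  ∑ x ∈ D, (ZMod.stdAddChar (∑ i, u i * x i) : ℂ)

theorem Dh_real (D : Finset (Fin m → ZMod q)) (hD : ∀ x ∈ D, -x ∈ D) (u : Fin m → ZMod q) :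
    ((Dh D u).re : ℂ) = Dh D u := by
  rw [← Complex.conj_eq_iff_re]
  unfold Dh
  rw [map_sum]
  refine Finset.sum_bij' (fun x _ => -x) (fun x _ => -x) (fun x hx => hD x hx)
    (fun x hx => hD x hx) (fun x _ => neg_neg x) (fun x _ => neg_neg x) ?_
  intro x _
  rw [← AddChar.map_neg_eq_conj]
  congr 1
  rw [← Finset.sum_neg_distrib]
  refine Finset.sum_congr rfl fun i _ => ?_
  rw [Pi.neg_apply, mul_neg]

/-- the part of the eigenvalue which depends on `u` only -/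
noncomputable def gg (Hs : Fin N → AddSubgroup (ZMod q × ZMod q)) (u : Fin m → ZMod q) : ℤ :=
  ∑ j, ∑ σ, Ti (H0 (Hs σ)) (u j, 0)

theorem Li_mod (φ : Fin m → Fin N × Fin 3 → Fin m) {Hs : Fin N → AddSubgroup (ZMod q × ZMod q)}
    (hHs : ∀ x : ZMod q × ZMod q, ∃ s : ℤ,
      (q : ℤ) ^ 2 * expo x + ∑ σ, Ti (Hs σ) x = (q : ℤ) ^ 3 * s) (u w : Fin m → ZMod q) :
    ∃ S : ℤ, Li φ Hs u w = (q : ℤ) ^ 3 * S + (q : ℤ) ^ 2 * ∑ j, expo (u j, w j) + gg Hs u := by
  choose s hs using hHs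
  refine ⟨∑ j, (∑ σ, (Ti (Hs σ) (u j, w j) - Ti (H0 (Hs σ)) (u j, 0)) *
    (if (fun l => u (φ j (σ, l))) = 0 then 1 else 0) - s (u j, w j)), ?_⟩
  unfold Li gg
  rw [Finset.mul_sum, Finset.mul_sum, ← Finset.sum_add_distrib, ← Finset.sum_add_distrib]
  refine Finset.sum_congr rfl fun j _ => ?_
  have h1 := hs (u j, w j)
  rw [mul_sub, ← h1, Finset.mul_sum]
  have h2 : ∀ σ, (Ti (Hs σ) (u j, w j) - Ti (H0 (Hs σ)) (u j, 0)) *
      ((q : ℤ) ^ 3 * (if (fun l => u (φ j (σ, l))) = 0 then 1 else 0) - 1)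
      = (q : ℤ) ^ 3 * ((Ti (Hs σ) (u j, w j) - Ti (H0 (Hs σ)) (u j, 0)) *
      (if (fun l => u (φ j (σ, l))) = 0 then 1 else 0)) - Ti (Hs σ) (u j, w j)
      + Ti (H0 (Hs σ)) (u j, 0) := by
    intro σ
    ring
  rw [Finset.sum_congr rfl fun σ _ => h2 σ, Finset.sum_add_distrib, Finset.sum_sub_distrib]
  ring

/-- the time -/
noncomputable def tt (q : ℕ) : ℝ := 2 * Real.pi / (q : ℝ) ^ 3

theorem expo_cast (x : ZMod q × ZMod q) : ((expo x : ℤ) : ZMod q) = x.2 * pi1 x.1 := by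
  unfold expo
  rw [Int.cast_natCast, ZMod.natCast_zmod_val]

theorem exp_lam {φ : Fin m → Fin N × Fin 3 → Fin m} (hφ : ∀ j, Function.Injective (φ j))
    (hj : ∀ j s, φ j s ≠ j) {Hs : Fin N → AddSubgroup (ZMod q × ZMod q)}
    (hHs : ∀ x : ZMod q × ZMod q, ∃ s : ℤ,
      (q : ℤ) ^ 2 * expo x + ∑ σ, Ti (Hs σ) x = (q : ℤ) ^ 3 * s)
    (D : Finset (Fin m → ZMod q)) (hD : ∀ x ∈ D, -x ∈ D) (u w : Fin m → ZMod q) :
    Complex.exp (Complex.I * (tt q : ℂ) * lam (CC φ Hs D) (chr (Fin.append u w)))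
      = Complex.exp (((tt q * ((gg Hs u : ℝ) + (Dh D u).re) : ℝ) : ℂ) * Complex.I)
        * ZMod.stdAddChar (∑ j, w j * pi1 (u j)) := by
  have h1 : lam (CC φ Hs D) (chr (Fin.append u w)) = (Li φ Hs u w : ℂ) + Dh D u := by
    unfold lam Dh
    exact lam_eq hφ hj Hs D u w
  obtain ⟨S, hS⟩ := Li_mod φ hHs u w
  have hq : (q : ℂ) ≠ 0 := Nat.cast_ne_zero.2 (NeZero.ne q)
  have h2 : (∑ j, w j * pi1 (u j) : ZMod q) = ((∑ j, expo (u j, w j) : ℤ) : ZMod q) := by
    rw [Int.cast_sum]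
    refine Finset.sum_congr rfl fun j _ => ?_
    rw [expo_cast]
  rw [h1, hS, h2, ZMod.stdAddChar_coe, ← Dh_real D hD u]
  set E : ℤ := ∑ j, expo (u j, w j) with hE
  have h3 : Complex.I * (tt q : ℂ) *
      (((((q : ℤ) ^ 3 * S + (q : ℤ) ^ 2 * E + gg Hs u : ℤ)) : ℂ) + ((Dh D u).re : ℂ))
      = (S : ℂ) * (2 * Real.pi * Complex.I) + (((tt q * ((gg Hs u : ℝ) + (Dh D u).re) : ℝ) : ℂ)
        * Complex.I + 2 * Real.pi * Complex.I * (E : ℂ) / (q : ℂ)) := by
    unfold tt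
    push_cast
    field_simp
    ring
  rw [h3, Complex.exp_add, Complex.exp_int_mul_two_pi_mul_I, one_mul, Complex.exp_add,
    Complex.ofReal_re]

theorem sum_chr_append {f : AddChar (Fin (m + m) → ZMod q) ℂ → ℂ} :
    ∑ ψ, f ψ = ∑ u : Fin m → ZMod q, ∑ w : Fin m → ZMod q, f (chr (Fin.append u w)) := by
  classical
  rw [← Fintype.sum_prod_type']
  rw [← Function.Bijective.sum_comp (chr_bijective (q := q) (d := m + m)) f]
  exact (Fintype.sum_equiv (Fin.appendEquiv m m) _ _ (fun p => rfl)).symm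

/-- Flatness of the walk. -/
theorem walk_norm {φ : Fin m → Fin N × Fin 3 → Fin m} (hφ : ∀ j, Function.Injective (φ j))
    (hj : ∀ j s, φ j s ≠ j) {Hs : Fin N → AddSubgroup (ZMod q × ZMod q)}
    (hHs : ∀ x : ZMod q × ZMod q, ∃ s : ℤ,
      (q : ℤ) ^ 2 * expo x + ∑ σ, Ti (Hs σ) x = (q : ℤ) ^ 3 * s)
    (D : Finset (Fin m → ZMod q)) (hD : ∀ x ∈ D, -x ∈ D) (a b : Fin (m + m) → ZMod q) :
    ((q : ℝ) ^ m) * ‖walk (CC φ Hs D) (Complex.I * (tt q : ℂ)) a b‖ = 1 := by
  classical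
  have h0 := walk_apply (CC φ Hs D) (Complex.I * (tt q : ℂ)) a b
  rw [sum_chr_append] at h0
  set v : Fin (m + m) → ZMod q := a - b with hv
  set v1' : Fin m → ZMod q := fun i => v (Fin.castAdd m i) with hv1
  set v2' : Fin m → ZMod q := fun i => v (Fin.natAdd m i) with hv2
  have hvv : Fin.append v1' v2' = v := Fin.append_castAdd_natAdd
  let h : (Fin m → ZMod q) → ℂ := fun u =>
    Complex.exp (((tt q * ((gg Hs u : ℝ) + (Dh D u).re) : ℝ) : ℂ) * Complex.I)
  have h1 : ∀ u w : Fin m → ZMod q,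
      Complex.exp (Complex.I * (tt q : ℂ) * lam (CC φ Hs D) (chr (Fin.append u w))) *
        chr (Fin.append u w) v
      = h u * ZMod.stdAddChar (∑ j, u j * v1' j) *
        ZMod.stdAddChar (∑ j, (pi1 (u j) + v2' j) * w j) := by
    intro u w
    rw [exp_lam hφ hj hHs D hD, chr_apply, ← hvv, dot_append, AddChar.map_add_eq_mul]
    have e : ∑ j, (pi1 (u j) + v2' j) * w j = ∑ j, w j * pi1 (u j) + ∑ j, w j * v2' j := by
      rw [← Finset.sum_add_distrib]
      exact Finset.sum_congr rfl fun j _ => by ring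
    rw [e, AddChar.map_add_eq_mul]
    ring
  have h2 : ∀ u : Fin m → ZMod q, ∑ w : Fin m → ZMod q,
      Complex.exp (Complex.I * (tt q : ℂ) * lam (CC φ Hs D) (chr (Fin.append u w))) *
        chr (Fin.append u w) v
      = if u = (fun j => pi1 (-v2' j)) then
          h u * ZMod.stdAddChar (∑ j, u j * v1' j) * (q : ℂ) ^ m else 0 := by
    intro u
    rw [Finset.sum_congr rfl fun w _ => h1 u w, ← Finset.mul_sum,
      sum_dot (fun j => pi1 (u j) + v2' j), Fintype.card_fin]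
    have hiff : (fun j => pi1 (u j) + v2' j) = 0 ↔ u = (fun j => pi1 (-v2' j)) := by
      constructor
      · intro hh
        funext j
        have := congrFun hh j
        have h3 : pi1 (u j) = -v2' j := eq_neg_of_add_eq_zero_left this
        rw [← h3, pi1_pi1]
      · intro hh
        funext j
        rw [hh]
        show pi1 (pi1 (-v2' j)) + v2' j = 0
        rw [pi1_pi1, neg_add_cancel]
    by_cases hu : u = (fun j => pi1 (-v2' j))
    · rw [if_pos hu, if_pos (hiff.2 hu)]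
    · rw [if_neg hu, if_neg (fun hh => hu (hiff.1 hh)), mul_zero]
  rw [Finset.sum_congr rfl fun u _ => h2 u, Finset.sum_ite_eq' Finset.univ, 
    if_pos (Finset.mem_univ _)] at h0
  have h3 := congrArg norm h0
  rw [norm_mul, norm_mul, norm_mul, Complex.norm_natCast, norm_pow, Complex.norm_natCast] at h3
  have h4 : ‖h (fun j => pi1 (-v2' j))‖ = 1 := Complex.norm_exp_ofReal_mul_I _
  rw [h4, AddChar.norm_apply, one_mul, one_mul] at h3
  have h5 : Fintype.card (Fin (m + m) → ZMod q) = q ^ (m + m) := by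
    rw [Fintype.card_fun, ZMod.card, Fintype.card_fin]
  rw [h5] at h3
  push_cast at h3
  rw [pow_add, mul_assoc] at h3
  have hqm : ((q : ℝ) ^ m) ≠ 0 := pow_ne_zero m (Nat.cast_ne_zero.2 (NeZero.ne q))
  have h6 : ((q : ℝ) ^ m) * (((q : ℝ) ^ m) *
      ‖walk (CC φ Hs D) (Complex.I * (tt q : ℂ)) a b‖) = ((q : ℝ) ^ m) * 1 := by
    rw [h3, mul_one]
  exact mul_left_cancel₀ hqm h6

end Pool.Agent.UMix
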