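import Pool.Agent.UMix.Span

/-!
# A bijection of `ZMod q` that inverts units

`pi1 (c • u) = c⁻¹ • pi1 u` for all units `c`.
-/

set_option autoImplicit false

open Finset

namespace Pool.Agent.UMix

variable {q : ℕ}

/-- representative of the unit orbit of `u` -/
noncomputable def rep (u : ZMod q) : ZMod q :=
  Quotient.out (Quotient.mk (MulAction.orbitRel (ZMod q)ˣ (ZMod q)) u)

theorem exists_unit_rep (u : ZMod q) : ∃ c : (ZMod q)ˣ, c • rep u = u := by
  have h : (MulAction.orbitRel (ZMod q)ˣ (ZMod q)) (rep u) u := Quotient.mk_out u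
  have h2 : (MulAction.orbitRel (ZMod q)ˣ (ZMod q)) u (rep u) :=
    (MulAction.orbitRel (ZMod q)ˣ (ZMod q)).symm h
  exact h2

theorem rep_smul (c : (ZMod q)ˣ) (u : ZMod q) : rep (c • u) = rep u := by
  unfold rep
  have h : Quotient.mk (MulAction.orbitRel (ZMod q)ˣ (ZMod q)) (c • u)
      = Quotient.mk (MulAction.orbitRel (ZMod q)ˣ (ZMod q)) u := by
    apply Quotient.sound
    exact ⟨c, rfl⟩
  rw [h]

/-- the bijection -/
noncomputable def pi1 (u : ZMod q) : ZMod q := ((exists_unit_rep u).choose)⁻¹ • rep u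

theorem pi1_eq (u : ZMod q) (c : (ZMod q)ˣ) (h : c • rep u = u) : pi1 u = c⁻¹ • rep u := by
  have h' : (exists_unit_rep u).choose • rep u = u := (exists_unit_rep u).choose_spec
  set c' := (exists_unit_rep u).choose with hc'
  have e : c' • rep u = c • rep u := by rw [h', h]
  show c'⁻¹ • rep u = c⁻¹ • rep u
  have e2 : (c'⁻¹ * c⁻¹) • (c' • rep u) = (c'⁻¹ * c⁻¹) • (c • rep u) := by rw [e]
  rw [smul_smul, smul_smul] at e2
  have e3 : c'⁻¹ * c⁻¹ * c' = c⁻¹ := by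
    rw [mul_comm c'⁻¹ c⁻¹, mul_assoc, inv_mul_cancel, mul_one]
  have e4 : c'⁻¹ * c⁻¹ * c = c'⁻¹ := by
    rw [mul_assoc, inv_mul_cancel, mul_one]
  rw [e3, e4] at e2
  exact e2.symm

theorem pi1_smul (c : (ZMod q)ˣ) (u : ZMod q) : pi1 (c • u) = c⁻¹ • pi1 u := by
  obtain ⟨d, hd⟩ := exists_unit_rep u
  have h1 : (c * d) • rep (c • u) = c • u := by
    rw [rep_smul, mul_smul, hd]
  rw [pi1_eq _ _ h1, pi1_eq _ _ hd, rep_smul, smul_smul, mul_inv]

theorem pi1_pi1 (u : ZMod q) : pi1 (pi1 u) = u := by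
  obtain ⟨d, hd⟩ := exists_unit_rep u
  have h1 : pi1 u = d⁻¹ • rep u := pi1_eq _ _ hd
  have h2 : rep (pi1 u) = rep u := by
    rw [h1, rep_smul]
    have : rep u = d⁻¹ • u := by
      rw [eq_inv_smul_iff]; exact hd
    rw [this, rep_smul]
    exact this
  have h3 : d⁻¹ • rep (pi1 u) = pi1 u := by rw [h2, h1]
  rw [pi1_eq _ _ h3, inv_inv, h2, hd]

/-- generators of the same cyclic subgroup of `(ℤ/q)²` differ by a unit of `ℤ/q` -/
theorem exists_unit_of_zmultiples_eq [NeZero q] (x y : ZMod q × ZMod q)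
    (h : AddSubgroup.zmultiples x = AddSubgroup.zmultiples y) :
    ∃ c : (ZMod q)ˣ, y = ((c : ZMod q) * x.1, (c : ZMod q) * x.2) := by
  have hy : y ∈ AddSubgroup.zmultiples x := by rw [h]; exact AddSubgroup.mem_zmultiples y
  have hx : x ∈ AddSubgroup.zmultiples y := by rw [← h]; exact AddSubgroup.mem_zmultiples x
  obtain ⟨k, hk⟩ := AddSubgroup.mem_zmultiples_iff.1 hy
  obtain ⟨l, hl⟩ := AddSubgroup.mem_zmultiples_iff.1 hx
  have hn : addOrderOf x ∣ q := by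
    rw [addOrderOf_dvd_iff_nsmul_eq_zero]
    ext <;> simp
  have h1 : (l * k - 1) • x = 0 := by
    rw [sub_smul, mul_smul, hk, hl, one_smul, sub_self]
  have h2 : (addOrderOf x : ℤ) ∣ l * k - 1 := by
    rw [addOrderOf_dvd_iff_zsmul_eq_zero]
    exact h1
  have h3 : ((l : ZMod (addOrderOf x)) * (k : ZMod (addOrderOf x))) = 1 := by
    have := (ZMod.intCast_zmod_eq_zero_iff_dvd (l * k - 1) (addOrderOf x)).2 h2
    push_cast at this
    exact sub_eq_zero.1 this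
  let κ : (ZMod (addOrderOf x))ˣ := ⟨(k : ZMod (addOrderOf x)), (l : ZMod (addOrderOf x)),
    by rw [mul_comm]; exact h3, h3⟩
  obtain ⟨c, hc⟩ := ZMod.unitsMap_surjective hn κ
  refine ⟨c, ?_⟩
  have h4 : (((c : ZMod q).val : ℤ) : ZMod (addOrderOf x)) = (k : ZMod (addOrderOf x)) := by
    have h5 : ((ZMod.unitsMap hn c : (ZMod (addOrderOf x))ˣ) : ZMod (addOrderOf x))
        = (k : ZMod (addOrderOf x)) := by
      rw [hc]
    rw [ZMod.unitsMap_val] at h5
    rw [← h5]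
    rw [Int.cast_natCast, ZMod.natCast_val]
  have h6 : (addOrderOf x : ℤ) ∣ ((c : ZMod q).val : ℤ) - k := by
    rw [← ZMod.intCast_zmod_eq_zero_iff_dvd]
    push_cast
    rw [Int.cast_natCast] at h4
    rw [h4, sub_self]
  rw [addOrderOf_dvd_iff_zsmul_eq_zero, sub_smul, sub_eq_zero] at h6
  rw [← hk, ← h6]
  rw [natCast_zsmul]
  ext
  · show (c : ZMod q).val • x.1 = _
    rw [nsmul_eq_mul, ZMod.natCast_val, ZMod.cast_id]
  · show (c : ZMod q).val • x.2 = _
    rw [nsmul_eq_mul, ZMod.natCast_val, ZMod.cast_id]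

/-- the exponent function -/
noncomputable def expo (x : ZMod q × ZMod q) : ℤ := ((x.2 * pi1 x.1).val : ℤ)

theorem expo_classFun [NeZero q] : ClassFun (expo (q := q)) := by
  intro x y h
  obtain ⟨c, hc⟩ := exists_unit_of_zmultiples_eq x y h
  unfold expo
  rw [hc]
  have e : (c : ZMod q) * x.1 = c • x.1 := rfl
  show ((x.2 * pi1 x.1).val : ℤ) = (((c : ZMod q) * x.2 * pi1 ((c : ZMod q) * x.1)).val : ℤ)
  rw [e, pi1_smul]
  have e2 : (c : ZMod q) * x.2 * (c⁻¹ • pi1 x.1) = x.2 * pi1 x.1 := by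
    show (c : ZMod q) * x.2 * (((c⁻¹ : (ZMod q)ˣ) : ZMod q) * pi1 x.1) = x.2 * pi1 x.1
    have : (c : ZMod q) * x.2 * (((c⁻¹ : (ZMod q)ˣ) : ZMod q) * pi1 x.1)
        = ((c : ZMod q) * ((c⁻¹ : (ZMod q)ˣ) : ZMod q)) * (x.2 * pi1 x.1) := by ring
    rw [this, Units.mul_inv, one_mul]
  rw [e2]

end Pool.Agent.UMix
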